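import Pool.Agent.Helper98.HR.Defs

/-!
Piece A1 of block HAIR: membership in the law with free outer boundary, elementary rules for `pr`.
-/

open Finset RP4 DV

namespace HR

/-- For `v ∈ Λ` take a path in `Λ` from a point of `Z` to `v` (`Cnn Λ`): by induction along the path there is `n` with `|g v| ≤ n`
for all `g` of the set.  Take the sum of these `n` over `v ∈ Λ` and use `A02_fin`. -/
lemma anc_finite {Λ Z : Finset V} (h : Anc Λ Z) : (zeroSet Λ 0 Z).Finite := by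
  sorry

/-- unfold `Zs`, `dif_pos anc_finite` (as in `mem_Zs`) -/
lemma mem_lw {Λ Z : Finset V} (h : Anc Λ Z) {g : V → ℤ} :
    g ∈ Zs Λ 0 Z ↔ IsHom Λ 0 g ∧ ∀ v ∈ Z, g v = 0 := by
  sorry

/-- `flat_isHom`; `flat` vanishes on even sites -/
lemma flat_lw {Λ Z : Finset V} (h : Anc Λ Z) : flat Λ 0 ∈ Zs Λ 0 Z := by
  sorry

lemma card_lw {Λ Z : Finset V} (h : Anc Λ Z) : (0 : ℝ) < (Zs Λ 0 Z).card := by
  have := Finset.card_pos.2 ⟨_, flat_lw h⟩
  exact_mod_cast this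

/-- `IsHom.neg` -/
lemma neg_lw {Λ Z : Finset V} (h : Anc Λ Z) {g : V → ℤ} (hg : g ∈ Zs Λ 0 Z) : -g ∈ Zs Λ 0 Z := by
  sorry

/-- symmetry `g ↦ -g` (`card_bij`) -/
lemma pr_neg {Λ Z : Finset V} (h : Anc Λ Z) (E : (V → ℤ) → Prop) :
    pr (Zs Λ 0 Z) (fun g => E (-g)) = pr (Zs Λ 0 Z) E := by
  sorry

/-- if `A` is nonempty with even boundary sites and `A ⊆ Λ`, `Λ` connected, then the even sites of `A` anchor `Λ`: a finite nonempty
set has a boundary site (`exists_bdry_right`) -/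
lemma anc_zt {Λ A : Finset V} (hΛ : Cnn (Λ : Set V)) (hs : A ⊆ Λ) (hne : A.Nonempty)
    (hev : ∀ v ∈ bdry A, Even (par v)) : Anc Λ (zt A) := by
  sorry

variable {S : Finset (V → ℤ)} {E E' : (V → ℤ) → Prop}

lemma pr_nonneg (S : Finset (V → ℤ)) (E : (V → ℤ) → Prop) : 0 ≤ pr S E := by
  sorry

lemma pr_le_one (S : Finset (V → ℤ)) (E : (V → ℤ) → Prop) : pr S E ≤ 1 := by
  sorry

lemma pr_mono (h : ∀ g ∈ S, E g → E' g) : pr S E ≤ pr S E' := by
  sorry

lemma pr_congr (h : ∀ g ∈ S, (E g ↔ E' g)) : pr S E = pr S E' :=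
  le_antisymm (pr_mono fun g hg => (h g hg).1) (pr_mono fun g hg => (h g hg).2)

lemma pr_one (hS : S.Nonempty) (h : ∀ g ∈ S, E g) : pr S E = 1 := by
  sorry

lemma pr_or_le (S : Finset (V → ℤ)) (E E' : (V → ℤ) → Prop) : pr S (fun g => E g ∨ E' g) ≤ pr S E + pr S E' := by
  sorry

/-- split of an event along another one -/
lemma pr_split (S : Finset (V → ℤ)) (E E' : (V → ℤ) → Prop) :
    pr S E = pr S (fun g => E' g ∧ E g) + pr S (fun g => ¬ E' g ∧ E g) := by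
  sorry

/-- union bound over a finite set of indices -/
lemma pr_exists_le {ι : Type*} (t : Finset ι) (E : ι → (V → ℤ) → Prop) :
    pr S (fun g => ∃ i ∈ t, E i g) ≤ ∑ i ∈ t, pr S (E i) := by
  sorry

/-- additivity for events that exclude each other -/
lemma pr_exists_eq {ι : Type*} (t : Finset ι) (E : ι → (V → ℤ) → Prop)
    (hd : ∀ g ∈ S, ∀ i ∈ t, ∀ j ∈ t, E i g → E j g → i = j) :
    pr S (fun g => ∃ i ∈ t, E i g) = ∑ i ∈ t, pr S (E i) := by
  sorry

end HR
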