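import Pool.Agent.Helper98.HR.A1

/-!
Piece A2 of block HAIR: FKG for the absolute value in the box with free outer boundary.

Copy of `mult`, `A04_G`, `A04_app`, `A04_equiv`, `A04_card`, `mult_supermodular` (Helper63/RP4/A04.lean, in one place there the boundary
zeros `bdry D` are used: replace them by the pinned set `Z`; finiteness from `mem_lw` instead of `mem_Zs`) and of `abs_fkg_gen`
(Helper63/RP4/E2.lean).  With `multZ ξ = #{g ∈ Zs Λ 0 Z : |g| = ξ}` for `ξ` vanishing on `Z`: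
`multZ ξ * multZ η ≤ multZ (ξ ⊓ η) * multZ (ξ ⊔ η)`; note `multZ ξ` does not depend on `Z` as long as `ξ` vanishes on `Z`
(so for `Z ⊆ Z'` and `ξ = 0` on `Z'` the two numbers agree).
-/

open Finset RP4 DV

namespace HR

theorem fkg_gen {Λ Z Z' : Finset V} (h : Anc Λ Z) (h' : Anc Λ Z') (hZ : Z ⊆ Z') (F : (V → ℤ) → ℝ) (hF0 : ∀ g, 0 ≤ F g)
    (habs : ∀ g : V → ℤ, F (fun v => |g v|) = F g)
    (hF : ∀ g g' : V → ℤ, (∀ v, 0 ≤ g v) → (∀ v, g v ≤ g' v) → F g ≤ F g') :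
    avg (Zs Λ 0 Z') F ≤ avg (Zs Λ 0 Z) F := by
  sorry

/-- `fkg_gen` for the indicator of the complement of `E` (`pr E = 1 - avg (indicator of not E)`) -/
theorem fkg_dec {Λ Z Z' : Finset V} (h : Anc Λ Z) (h' : Anc Λ Z') (hZ : Z ⊆ Z') {E : (V → ℤ) → Prop} (hE : Dec E) :
    pr (Zs Λ 0 Z) E ≤ pr (Zs Λ 0 Z') E := by
  sorry

end HR
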