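import Pool.Agent.Helper98.HR.A2

/-!
Piece A3 of block HAIR: covariances are nonnegative and decrease when zeros are added.
-/

open Finset RP4 DV

namespace HR

open Classical in
/-- product of the absolute values if the two points are in the same cluster of nonzero sites -/
noncomputable def cc (Λ : Finset V) (u v : V) (g : V → ℤ) : ℝ :=
  if Con {w | w ∈ Λ ∧ g w ≠ 0} u v then |(g u : ℝ)| * |(g v : ℝ)| else 0

/-- If `u`, `v` are in the same nonzero cluster then `g u * g v > 0` (neighbouring nonzero heights have the same sign).  Otherwise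
reverse the sign on the nonzero cluster of `u`: an involution of `Zs Λ 0 Z` which keeps the absolute value (hence the clusters) and
changes the sign of `g u * g v`, so these terms sum to `0`.  (If `u ∉ Λ` both sides vanish.) -/
theorem cov_eq {Λ Z : Finset V} (h : Anc Λ Z) (u v : V) :
    avg (Zs Λ 0 Z) (fun g => (g u : ℝ) * g v) = avg (Zs Λ 0 Z) (cc Λ u v) := by
  sorry

/-- `cov_eq`, `cc ≥ 0`, `cc` of the absolute value is `cc`, and `cc` is increasing on nonnegative functions: `fkg_gen`;
expand the square. -/
theorem var_mono {Λ Z Z' : Finset V} (h : Anc Λ Z) (h' : Anc Λ Z') (hZ : Z ⊆ Z') (D : Finset V) (g : V → ℝ)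
    (hg : ∀ v, 0 ≤ g v) :
    avg (Zs Λ 0 Z') (fun h => (∑ v ∈ D, g v * (h v : ℝ)) ^ 2) ≤
      avg (Zs Λ 0 Z) (fun h => (∑ v ∈ D, g v * (h v : ℝ)) ^ 2) := by
  sorry

end HR
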