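import Pool.Agent.Helper98.HR.M1

/-!
Piece M2 of block HAIR: resampling inside a region; independence across a cut.
-/

open Finset RP4 DV

namespace HR

variable {Λ F : Finset V}

/-- RESAMPLING INSIDE.  `S` is a set of heights which vanish on the boundary of `F` and on the even sites of `A ⊆ F`, closed under
changes inside `F` which keep these zeros; `R` depends only on the heights in `F`.  Then the law of the heights in `F` given `S` is the one
with zeros on `A`, on `bdry F` and outside `F` (`zin`).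
Bijection `(h, g) ↦ (glu F g h, glu F h g)` from `S × {g ∈ Zs Λ 0 (zin Λ A F) | R g}` to `{h ∈ S | R h} × Zs Λ 0 (zin Λ A F)`. -/
theorem swap_in {A : Finset V} (hA : Anc Λ (zin Λ A F)) (hF : F ⊆ Λ) (hAF : A ⊆ F) (hev : ∀ v ∈ bdry F, Even (par v))
    (S : Finset (V → ℤ)) (hS : ∀ h ∈ S, IsHom Λ 0 h ∧ (∀ v ∈ bdry F, h v = 0) ∧ ∀ v ∈ zt A, h v = 0)
    (hcl : ∀ h ∈ S, ∀ h', IsHom Λ 0 h' → (∀ v ∈ Out F, h' v = h v) → (∀ v ∈ zt A, h' v = 0) → h' ∈ S)
    (R : (V → ℤ) → Prop) (hR : Loc (F : Set V) R) :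
    pr S R * S.card = S.card * pr (Zs Λ 0 (zin Λ A F)) R := by
  sorry

/-- INDEPENDENCE ACROSS A CUT.  Every edge of `Λ` between `F` and the outside has an end in the zero set `Z`.  Then `glu F h g` is again in
`Zs Λ 0 Z` for `h, g ∈ Zs Λ 0 Z` (at the zero end both heights are `0`, the other end has a height `1` or `-1`).  Bijection
`(h, g) ↦ (glu F h g, glu F g h)` from `{E ∧ E'} × Zs` to `{E} × {E'}`. -/
theorem cut_indep {Z : Finset V} (hZ : Anc Λ Z)
    (hcut : ∀ u ∈ F, ∀ v, v ∉ F → Adj u v → u ∈ Λ → v ∈ Λ → u ∈ Z ∨ v ∈ Z) {E E' : (V → ℤ) → Prop}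
    (hE : Loc (F : Set V) E) (hE' : Loc ((F : Set V)ᶜ) E') :
    pr (Zs Λ 0 Z) (fun g => E g ∧ E' g) = pr (Zs Λ 0 Z) E * pr (Zs Λ 0 Z) E' := by
  sorry

end HR
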