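import Pool.Agent.Helper98.HR.X1

/-!
Piece X2 of block HAIR: the boundary sites of a region lie in one low cluster.
-/

open Finset RP4 DV

namespace HR

variable {Λ B F : Finset V} {g : V → ℤ}

/-- ONE CLUSTER.  `F` king connected with connected complement, `g = 0` on `bdry F`.  For `u ∈ bdry F` choose a neighbour `b ∉ F`; `b ∈ Λ`
(`hB.nbr`), `|g b| = 1`, so `b` is low.  It remains to join `b` and `b'` in `T = Lo ∩ Out F`: `label_const'` with `U = Fᶜ`, label
`s b = comp T b`; `Bd U` consists of neighbours of boundary sites of `F` (odd sites, `hpar`); `hs`: `z ∈ F` is a neighbour of `b ∉ F`, so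
`z ∈ bdry F`, `z ∈ T`, and `b`, `d` are neighbours of `z`, so they are in the same component of `T` (`comp_eq_of_mem`). -/
theorem one_cluster (hB : Ball Λ B) (hF : F ⊆ B) (hk : ∀ u ∈ F, ∀ v ∈ F, KCon (F : Set V) u v)
    (hc : Cnn ((F : Set V)ᶜ)) (hg : IsHom Λ 0 g) (hv : ∀ v ∈ bdry F, g v = 0) :
    ∀ u ∈ bdry F, ∀ v ∈ bdry F, Con (Lo Λ g 0 ∩ Out F) u v := by
  sorry

/-- If `F` is a region (as above, containing `A`), some site of `A` is joined to `bdry F` by low sites in `F` (`Ht`), and the cluster of `F`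
leaves `B`, then the cluster of `A` leaves `B`.  Path from `F` to a site `v` with a neighbour outside `B`, in `F ∪ Lo`: if `v ∈ F` then
`v ∈ bdry F`; otherwise after the last site in `F` (it is in `bdry F`) the path is low.  All of `bdry F` is in the cluster of `A` by
`one_cluster`. -/
theorem Lv_of_Ht (hB : Ball Λ B) {A : Finset V} (hF : F ⊆ B) (hAF : A ⊆ F) (hk : ∀ u ∈ F, ∀ v ∈ F, KCon (F : Set V) u v)
    (hc : Cnn ((F : Set V)ᶜ)) (hg : IsHom Λ 0 g) (hv : ∀ v ∈ bdry F, g v = 0) (h1 : Ht Λ A F g) (h2 : Lv Λ B F g 0) :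
    Lv Λ B A g 0 := by
  sorry

/-- If `F` meets `Sq x r` but does not contain it, and `F` is not contained in `Sq x s`, then there is a low crossing: `Sq x r` is
connected (`Sq_cnn`), so it contains a site of `bdry F`; the complement of `Sq x s` is connected and unbounded, so it contains a site of
`bdry F`; `one_cluster`. -/
theorem Crs_of_region (hB : Ball Λ B) (hF : F ⊆ B) (hk : ∀ u ∈ F, ∀ v ∈ F, KCon (F : Set V) u v)
    (hc : Cnn ((F : Set V)ᶜ)) (hg : IsHom Λ 0 g) (hv : ∀ v ∈ bdry F, g v = 0) {x : V} {r s : ℤ} (h1 : ∃ u ∈ F, u ∈ Sq x r)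
    (h2 : ¬ Sq x r ⊆ (F : Set V)) (h3 : ¬ (F : Set V) ⊆ Sq x s) : Crs Λ x r s g := by
  sorry

end HR
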