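import Pool.Agent.Helper98.HR.E1
import Pool.Agent.Helper98.HR.X2
import Pool.Agent.Helper98.HR.M2

/-!
Piece C1 of block HAIR: closure of the exploration.
-/

open Finset RP4 DV

namespace HR

variable {Λ A B : Finset V} {ε : ℝ}

/-- General form used twice (piece C1 with `R F h = Lv Λ B F h 0`, piece W1 with `R F h = (Sq x r ⊆ F)`): given that `F` is the largest
region of level `0` and `R F`, the heights in `F` have the law with zeros `zin Λ A F`.
For every `F ⊆ B` let `S = (Zs Λ 0 (zt A)).filter (IsMx A B · 0 F ∧ R F ·)`: `swap_in` with `Ht Λ A F` (closed: `Mx_loc`, `hR`); if `S` is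
nonempty then `St B F` (even boundary sites by `IsHom.par`, value `0`) and the conditional probability of `Ht` is at least `ε`.  Sum over
`F ∈ B.powerset` (`pr_exists_eq`, `Mx_unique`). -/
theorem Mx_Ht (hB : Ball Λ B) (hA : St B A) (R : Finset V → (V → ℤ) → Prop) (hR : ∀ F, Loc (Out F) (R F))
    (hH : ∀ F, St B F → A ⊆ F → ε ≤ pr (Zs Λ 0 (zin Λ A F)) (Ht Λ A F)) :
    ε * pr (Zs Λ 0 (zt A)) (fun h => ∃ F, IsMx A B h 0 F ∧ R F h) ≤
      pr (Zs Λ 0 (zt A)) (fun h => ∃ F, IsMx A B h 0 F ∧ R F h ∧ Ht Λ A F h) := by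
  sorry

/-- `Mx_Ht`, `Lv_of_Ht` (`Mx_fill`) -/
theorem closure (hB : Ball Λ B) (hA : St B A) (hH : ∀ F, St B F → A ⊆ F → ε ≤ pr (Zs Λ 0 (zin Λ A F)) (Ht Λ A F)) :
    ε * pr (Zs Λ 0 (zt A)) (fun h => ∃ F, IsMx A B h 0 F ∧ Lv Λ B F h 0) ≤ pr (Zs Λ 0 (zt A)) (fun h => Lv Λ B A h 0) := by
  sorry

end HR
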