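import Pool.Agent.Helper98.HR.C1

/-!
Piece C2 of block HAIR: the leaving probability is at least `ε ^ 2 / 144`.
-/

open Finset RP4 DV

namespace HR

/-- pure calculus: take `m = ⌈sqrt (2 / q)⌉₊`: `1 / (q m ^ 2) ≤ 1 / 2`, so `p ≥ 1 / (2 (2 m + 1)) ≥ sqrt q / (4 sqrt 2 + 6)` and `q ≥ ε p`. -/
lemma self_bound {q ε : ℝ} (hq : 0 < q) (hq1 : q ≤ 1) (hε : 0 < ε) (p : ℝ)
    (h1 : ∀ m : ℕ, 0 < m → 1 - 1 / (q * (m : ℝ) ^ 2) ≤ (2 * m + 1) * p) (h2 : ε * p ≤ q) : ε ^ 2 / 144 ≤ q := by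
  sorry

/-- `q = pr Lv` (`Lv_prob_pos`, `Lv_prob_mono`, `level_zero`, `closure`, `self_bound`) -/
theorem leave_prob {Λ A B : Finset V} {ε : ℝ} (hB : Ball Λ B) (hA : St B A) (hε : 0 < ε)
    (hH : ∀ F, St B F → A ⊆ F → ε ≤ pr (Zs Λ 0 (zin Λ A F)) (Ht Λ A F)) :
    ε ^ 2 / 144 ≤ pr (Zs Λ 0 (zt A)) (fun h => Lv Λ B A h 0) := by
  sorry

end HR
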