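import Pool.Agent.Helper98.HR.A1

/-!
Piece T0 of block HAIR: the low cluster of a region.
-/

open Finset RP4 DV

namespace HR

variable {Λ B A : Finset V} {g : V → ℤ}

/-- An even site of `A` has height `0`.  An odd site of `A` is not a boundary site (`hA.ev`), so all its neighbours are in `A`, they
are even and have height `0`; `A ⊆ Λ`, so the height is `1` or `-1`. -/
lemma A_lo (hB : Ball Λ B) (hA : St B A) (hg : g ∈ Zs Λ 0 (zt A)) : (A : Set V) ⊆ Lo Λ g 0 := by
  sorry

/-- `A ∪ Lo = Lo` by `A_lo` -/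
lemma Cl_eq (hB : Ball Λ B) (hA : St B A) (hg : g ∈ Zs Λ 0 (zt A)) : Cl Λ A g 0 = clus (Lo Λ g 0) (A : Set V) := by
  sorry

/-- Two sites `a`, `b` of `A` are joined by low sites: along a king path of `A` (`hA.kc`) two consecutive sites `u`, `v` are equal,
neighbours, or diagonal neighbours.  In the last case let `w = (u.1, v.2)`, a common neighbour.  If `u` is odd, then `u` is not a boundary
site of `A`, so `w ∈ A`.  If `u` is even then `g u = 0`, `w ∈ Λ` (`hB.nbr`) and `|g w| = 1`.  So `w` is low.  Then `clus_con`. -/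
lemma Cl_cnn (hB : Ball Λ B) (hA : St B A) (hg : g ∈ Zs Λ 0 (zt A)) : Cnn (Cl Λ A g 0) := by
  sorry

/-- along the path from `A ⊆ B` each next site is a neighbour of a site of the cluster, so it is in `B` if not `Lv` -/
lemma Cl_int (hB : Ball Λ B) (hA : St B A) {F : Finset V} (hF : F ⊆ B) {c : ℤ} (hn : ¬ Lv Λ B F g c) :
    ∀ v ∈ Cl Λ F g c, v ∈ B ∧ ∀ u, Adj v u → u ∈ B := by
  sorry

/-- A site `v` of the layer is a neighbour of a site `z` of the cluster (`|g z| ≤ 1`, `Cl_eq`, `Cl_int`), it is in `B ⊆ Λ` and not in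
the cluster, so `|g v| > 1` and `|g v - g z| = 1`: `|g v| = 2`; the parity follows from `IsHom.par`. -/
lemma lay_val (hB : Ball Λ B) (hA : St B A) (hg : g ∈ Zs Λ 0 (zt A)) (hn : ¬ Lv Λ B A g 0) {v : V}
    (hv : v ∈ lay (Cl Λ A g 0)) : v ∈ B ∧ |g v| = 2 ∧ Even (par v) := by
  sorry

/-- the cluster grows with the region: for `F ⊆ F'` -/
lemma Lv_mono {F F' : Finset V} (h : F ⊆ F') {c : ℤ} (hl : Lv Λ B F g c) : Lv Λ B F' g c := by
  sorry

/-- `Lo` grows when the absolute value decreases -/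
lemma Lv_dec (F : Finset V) : Dec (fun g => Lv Λ B F g 0) := by
  sorry

/-- `Lv` for the region `F` depends only on the heights off `F` -/
lemma Lv_loc (F : Finset V) (c : ℤ) : Loc {v | v ∉ F} (fun g => Lv Λ B F g c) := by
  sorry

end HR
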