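import Pool.Agent.Helper98.HR.M2
import Pool.Agent.Helper98.HR.A2
import Pool.Agent.Helper98.HR.T0

/-!
Piece D1 of block HAIR: exponential decay of the low crossings over the scales.
-/

open Finset RP4 DV

namespace HR

/-- a low crossing from `Sq x r` beyond `Sq x s`, `r ≤ n < s`, splits at the square of radius `n` into a part inside and a part outside:
first exit and last entrance (`Jn.exit` for the path and for the reversed path) -/
lemma Crs_split {Λ : Finset V} {x : V} {r n s : ℤ} (hr : r ≤ n) (hs : n < s) {h : V → ℤ} (hc : Crs Λ x r s h) :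
    (∃ u ∈ Sq x r, ∃ v, v ∉ Sq x (n - 1) ∧ Con (Lo Λ h 0 ∩ Sq x n) u v) ∧
      ∃ u ∈ Sq x (n + 1), ∃ v, v ∉ Sq x s ∧ Con (Lo Λ h 0 ∩ (Sq x n)ᶜ) u v := by
  sorry

/-- DECAY.  Induction on `J` (for all `Λ x r Z`).  `J = 0`: `pr ≤ 1`.  Step: `n = K r`, `Z1` = even sites of `Λ` in `Sq x r` or in the two
layers `Sq x (n + 1) \ Sq x (n - 1)`; `Z ⊆ Z1`, so `pr_Z Crs ≤ pr_Z1 Crs` (`fkg_dec`).  Under `Z1` the two events `E1`, `E2` of `Crs_split`
(`s = rad K r (J + 1)`) are independent: `cut_indep` with `F = Λ ∩ Sq x n` (an edge across has both ends in the two layers, one of them is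
even).  `pr_Z1 E1 ≤ pr E1` for the larger zero set `zann Λ x r (n - 1)`, there `E1` implies `Crs Λ x r (n - 1)`: at most `1 - c` by `LOOP`.
`pr_Z1 E2 ≤ pr E2` for the larger zero set `zt (Λ ∩ Sq x (n + 1))`, there `E2` implies `Crs Λ x (n + 1) (rad K (n + 1) J)`
(`rad_succ'`): at most `(1 - c) ^ J` by induction. -/
theorem decay {K : ℤ} {c : ℝ} (hK : 2 ≤ K) (hc0 : 0 ≤ c) (hc1 : c ≤ 1) (hL : LOOP K c) (J : ℕ) :
    ∀ (Λ : Finset V) (x : V) (r : ℤ) (Z : Finset V), 1 ≤ r → Anc Λ Z → (Z : Set V) ⊆ Sq x r →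
      Sq x (rad K r J + 1) ⊆ (Λ : Set V) → pr (Zs Λ 0 Z) (Crs Λ x r (rad K r J)) ≤ (1 - c) ^ J := by
  sorry

/-- the cluster of a region `A` in `Sq x r` leaves a large set `B` only by a low crossing: a site with a neighbour outside `B` is not in
`Sq x (rad K r J)`; `Cl_eq` -/
theorem overshoot {K : ℤ} {c : ℝ} (hK : 2 ≤ K) (hc0 : 0 ≤ c) (hc1 : c ≤ 1) (hL : LOOP K c) (J : ℕ) {Λ A B : Finset V} {x : V}
    {r : ℤ} (hr : 1 ≤ r) (hB : Ball Λ B) (hA : St B A) (hAr : (A : Set V) ⊆ Sq x r)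
    (hBr : Sq x (rad K r J + 1) ⊆ (B : Set V)) : pr (Zs Λ 0 (zt A)) (fun g => Lv Λ B A g 0) ≤ (1 - c) ^ J := by
  sorry

end HR
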