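import Pool.Agent.Helper97.DV.Fl
import Pool.Agent.Helper63.RP4.E2

/-!
# Project DV, block HAIR (MP_973bc8_pr): definitions

Square ice heights on a big finite box `Λ` with FREE outer boundary and a pinned set of even zeros.  The law is the uniform
measure on `Zs Λ 0 Z`.  `A`, `F` are regions whose boundary sites are even and carry one constant value.
-/

open Finset RP4 DV

namespace HR

open Classical in
/-- the even sites of `A` -/
noncomputable def zt (A : Finset V) : Finset V := A.filter (fun v => Even (par v))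

lemma mem_zt {A : Finset V} {v : V} : v ∈ zt A ↔ v ∈ A ∧ Even (par v) := by
  unfold zt
  rw [mem_filter]

lemma zt_sub (A : Finset V) : zt A ⊆ A := fun _ h => (mem_zt.1 h).1

lemma zt_mono {A A' : Finset V} (h : A ⊆ A') : zt A ⊆ zt A' := fun _ hv =>
  mem_zt.2 ⟨h (mem_zt.1 hv).1, (mem_zt.1 hv).2⟩

/-- connected box with a nonempty set of pinned even zeros -/
structure Anc (Λ Z : Finset V) : Prop where
  con : Cnn (Λ : Set V)
  sub : Z ⊆ Λ
  even : ∀ v ∈ Z, Even (par v)
  ne : Z.Nonempty

/-- `B` lies inside the connected box `Λ`, with all its neighbours, and has a connected complement -/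
structure Ball (Λ B : Finset V) : Prop where
  con : Cnn (Λ : Set V)
  sub : B ⊆ Λ
  nbr : ∀ u ∈ B, ∀ v, Adj u v → v ∈ Λ
  ext : Cnn ((B : Set V)ᶜ)

/-- king connected region with even boundary sites -/
structure St (B A : Finset V) : Prop where
  sub : A ⊆ B
  ne : A.Nonempty
  kc : ∀ u ∈ A, ∀ v ∈ A, KCon (A : Set V) u v
  ev : ∀ v ∈ bdry A, Even (par v)

open Classical in
/-- probability of `E` for the uniform law on `S` -/
noncomputable def pr (S : Finset (V → ℤ)) (E : (V → ℤ) → Prop) : ℝ := ((S.filter E).card : ℝ) / S.card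

/-- the event is decreasing in the absolute value of the heights -/
def Dec (E : (V → ℤ) → Prop) : Prop := ∀ g g' : V → ℤ, (∀ v, |g' v| ≤ |g v|) → E g → E g'

/-- the event depends only on the heights in `S` -/
def Loc (S : Set V) (E : (V → ℤ) → Prop) : Prop := ∀ g g' : V → ℤ, (∀ v ∈ S, g v = g' v) → E g → E g'

/-- outside of `F` together with the boundary sites of `F` -/
def Out (F : Finset V) : Set V := {v | v ∉ F ∨ v ∈ bdry F}

/-- sites of height `c`, `c - 1` or `c + 1` -/
def Lo (Λ : Finset V) (g : V → ℤ) (c : ℤ) : Set V := {v | v ∈ Λ ∧ |g v - c| ≤ 1}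

/-- the cluster of `F` in `F` and the low sites -/
def Cl (Λ F : Finset V) (g : V → ℤ) (c : ℤ) : Set V := clus ((F : Set V) ∪ Lo Λ g c) (F : Set V)

/-- the cluster of `F` has a neighbour outside `B` -/
def Lv (Λ B F : Finset V) (g : V → ℤ) (c : ℤ) : Prop := ∃ v ∈ Cl Λ F g c, ∃ u, Adj v u ∧ u ∉ B

open Classical in
/-- the next region: the filling of the cluster and the layer around it -/
noncomputable def nx (B : Finset V) (C : Set V) : Finset V := B.filter (fun v => v ∈ fil1 C)

/-- one step of the outward exploration from `A` inside `B` ends in `A'`, with the value `2 e` on the layer -/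
def Sp (Λ B A A' : Finset V) (e : ℤ) (g : V → ℤ) : Prop :=
  ¬ Lv Λ B A g 0 ∧ nx B (Cl Λ A g 0) = A' ∧ ∀ v ∈ bdry A', g v = 2 * e

open Classical in
/-- `h` on `F`, `g` off `F` -/
noncomputable def glu (F : Finset V) (h g : V → ℤ) : V → ℤ := fun v => if v ∈ F then h v else g v

open Classical in
/-- heights of `Λ` shifted by `c` -/
noncomputable def sh (Λ : Finset V) (c : ℤ) (g : V → ℤ) : V → ℤ := fun v => if v ∈ Λ then g v + c else 0

/-- `F` is a king connected region between `A` and `B` with the constant value `c` on its boundary sites -/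
structure FL (A B : Finset V) (g : V → ℤ) (c : ℤ) (F : Finset V) : Prop where
  sub : A ⊆ F
  subB : F ⊆ B
  kc : ∀ u ∈ F, ∀ v ∈ F, KCon (F : Set V) u v
  val : ∀ v ∈ bdry F, g v = c

/-- the largest such region -/
def IsMx (A B : Finset V) (g : V → ℤ) (c : ℤ) (F : Finset V) : Prop :=
  FL A B g c F ∧ ∀ F', FL A B g c F' → F' ⊆ F

/-- some site of `A` is joined to the boundary of `F` by low sites in `F` -/
def Ht (Λ A F : Finset V) (g : V → ℤ) : Prop :=
  ∃ u ∈ A, ∃ v ∈ bdry F, Con (Lo Λ g 0 ∩ (F : Set V)) u v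

/-- low crossing from the square of radius `r` to the outside of the square of radius `s` -/
def Crs (Λ : Finset V) (x : V) (r s : ℤ) (g : V → ℤ) : Prop :=
  ∃ u ∈ Sq x r, ∃ v, v ∉ Sq x s ∧ Con (Lo Λ g 0) u v

/-- zero set of the environment in which only `F` is free: zeros outside `F`, on the boundary of `F` and on `A` -/
noncomputable def zin (Λ A F : Finset V) : Finset V := zt A ∪ zt ((Λ \ F) ∪ bdry F)

/-- a region reached by the exploration at level `2 k` which satisfies `G` (relative to its level) -/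
def Xg (Λ B : Finset V) (G : Finset V → (V → ℤ) → Prop) (A : Finset V) (k : ℤ) (h : V → ℤ) : Prop :=
  ∃ F, FL A B h (2 * k) F ∧ G F (sh Λ (-(2 * k)) h)

/-- the even sites of `Λ` in the square of radius `r` or outside the square of radius `s` -/
noncomputable def zann (Λ : Finset V) (x : V) (r s : ℤ) : Finset V := by
  classical exact zt (Λ.filter (fun v => v ∈ Sq x r ∨ v ∉ Sq x s))

/-- INPUT 1 (LOOP): in every annulus with zero boundary values the low sites do not cross, with probability at least `c` -/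
def LOOP (K : ℤ) (c : ℝ) : Prop := ∀ (Λ : Finset V) (x : V) (r : ℤ), 1 ≤ r → Cnn (Λ : Set V) →
  Sq x (K * r + 1) ⊆ (Λ : Set V) →
    pr (Zs Λ 0 (zann Λ x r (K * r - 1))) (Crs Λ x r (K * r - 1)) ≤ 1 - c

/-- `A` has diameter at least `r / N` -/
def Dm (A : Finset V) (r N : ℤ) : Prop := ∃ u ∈ A, ∃ v ∈ A, r ≤ N * |u.1 - v.1| ∨ r ≤ N * |u.2 - v.2|

open Classical in
/-- INPUT 2 (HIT): a king connected region of diameter at least `r / N` in the square of radius `r` is joined by low sites to
the outside of the square of radius `4 r` with probability at least `ε`, if both are zero -/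
def HIT (N : ℤ) (ε : ℝ) : Prop := ∀ (Λ : Finset V) (x : V) (r : ℤ) (A : Finset V), 1 ≤ r → Cnn (Λ : Set V) →
  Sq x (4 * r + 1) ⊆ (Λ : Set V) → St Λ A → (A : Set V) ⊆ Sq x r → Dm A r N →
      ε ≤ pr (Zs Λ 0 (zt A ∪ zt (Λ.filter (fun v => v ∉ Sq x (4 * r)))))
        (fun h => ∃ u ∈ A, ∃ v, v ∉ Sq x (4 * r) ∧ Con (Lo Λ h 0) u v)

/-- radii of the nested squares -/
def rad (K r : ℤ) : ℕ → ℤ
  | 0 => r
  | j + 1 => K * rad K r j + 1

lemma rad_succ' (K r : ℤ) (j : ℕ) : rad K r (j + 1) = rad K (K * r + 1) j := by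
  induction j with
  | zero => rfl
  | succ j ih =>
    show K * rad K r (j + 1) + 1 = K * rad K (K * r + 1) j + 1
    rw [ih]

/-- the square of radius `n` as a finite set -/
noncomputable def sq (x : V) (n : ℤ) : Finset V := Finset.Icc (x.1 - n) (x.1 + n) ×ˢ Finset.Icc (x.2 - n) (x.2 + n)

lemma coe_sq (x : V) (n : ℤ) : ((sq x n : Finset V) : Set V) = Sq x n := by
  ext v
  unfold sq Sq
  simp only [Finset.coe_product, Finset.coe_Icc, Set.mem_prod, Set.mem_Icc, Set.mem_ofPred_eq, abs_le]
  omega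

lemma mem_sq {x v : V} {n : ℤ} : v ∈ sq x n ↔ v ∈ Sq x n := by
  rw [← coe_sq, Finset.mem_coe]

lemma ball_sq {Λ : Finset V} (hΛ : Cnn (Λ : Set V)) {x : V} {n : ℤ} (h : Sq x (n + 1) ⊆ (Λ : Set V)) : Ball Λ (sq x n) := by
  refine ⟨hΛ, fun v hv => ?_, fun u hu v huv => ?_, ?_⟩
  · exact h (Sq_mono (by omega) (mem_sq.1 hv))
  · refine h ?_
    have h1 := mem_sq.1 hu
    have h2 := adj_kng huv
    unfold Sq at h1 ⊢
    unfold Kng at h2
    simp only [Set.mem_ofPred_eq, abs_le] at h1 h2 ⊢
    omega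
  · rw [coe_sq]
    exact Sq_compl_cnn x n

/-- the region `F` between the squares of radius `2 ρ` and `s` is swallowed by the low cluster of `A` -/
def Sw (Λ A : Finset V) (x : V) (r s : ℤ) (h : V → ℤ) : Prop :=
  ∃ F : Finset V, St (sq x s) F ∧ Sq x r ⊆ (F : Set V) ∧ ∀ v ∈ bdry F, v ∈ clus (Lo Λ h 0) (A : Set V)

end HR
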