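import Pool.Agent.Helper98.HR.T1

/-!
Piece X1 of block HAIR: the largest region with constant boundary value.
-/

open Finset RP4 DV

namespace HR

variable {Λ A B F F' : Finset V} {g g' : V → ℤ} {c : ℤ}

/-- both contain the nonempty set `A`, so the union is king connected; `bdry (F ∪ F') ⊆ bdry F ∪ bdry F'` -/
lemma FL_union (hA : A.Nonempty) (h : FL A B g c F) (h' : FL A B g c F') : FL A B g c (F ∪ F') := by
  sorry

/-- `F ⊆ B` for all of them: take one of maximal cardinality (`Finset.exists_maximal` in `B.powerset`) and `FL_union` -/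
lemma exists_Mx (hA : A.Nonempty) (h : ∃ F, FL A B g c F) : ∃ F, IsMx A B g c F := by
  sorry

lemma Mx_unique (h : IsMx A B g c F) (h' : IsMx A B g c F') : F = F' :=
  Finset.Subset.antisymm (h'.2 F h.1) (h.2 F' h'.1)

/-- The filling of `F` (as a finset, `B.filter (· ∈ fil F)`) is again such a region: `fil F ⊆ B` since the complement of `B` is connected
and unbounded; `bdry (fil F) ⊆ bdry F` (`ext_bd`); king connected by `fil_con`.  So `fil F = F` and the complement is `ext F`: `ext_cnn`. -/
lemma Mx_fill (hB : Ball Λ B) (hA : A.Nonempty) (h : IsMx A B g c F) : Cnn ((F : Set V)ᶜ) := by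
  sorry

/-- boundary sites of `F` which are in `A` are boundary sites of `A` -/
lemma FL_loc (F : Finset V) (hgg : ∀ v ∈ Out A, g v = g' v) (h : FL A B g c F) : FL A B g' c F := by
  sorry

/-- If `g'` agrees with `g` off `F` and on `bdry F` then `F` is also the largest region for `g'`: let `F'` be a region for `g'`; the boundary
sites of `F ∪ F'` are off `F` or in `bdry F`, so there `g = g' = c`, so `F ∪ F'` is a region for `g`. -/
lemma Mx_loc (hA : A.Nonempty) (hgg : ∀ v ∈ Out F, g v = g' v) (h : IsMx A B g c F) : IsMx A B g' c F := by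
  sorry

/-- shift of the level -/
lemma FL_sh {d : ℤ} (hB : B ⊆ Λ) : FL A B (sh Λ (-d) g) c F ↔ FL A B g (c + d) F := by
  sorry

lemma Mx_sh {d : ℤ} (hB : B ⊆ Λ) : IsMx A B (sh Λ (-d) g) c F ↔ IsMx A B g (c + d) F := by
  sorry

lemma Mx_neg : IsMx A B (-g) (-c) F ↔ IsMx A B g c F := by
  sorry

/-- `Out` of a larger region -/
lemma Out_sub (h : A ⊆ F) : Out F ⊆ Out A := by
  sorry

end HR
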