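import Pool.Agent.Helper98.HR.S1
import Pool.Agent.Helper98.HR.X1

/-!
Piece E0 of block HAIR: the walk of the levels (Kolmogorov inequality by induction on the region).
-/

open Finset RP4 DV

namespace HR

variable {Λ B : Finset V} {G : Finset V → (V → ℤ) → Prop}

/-- `FL_loc`, `Out_sub` (a region `F ⊇ A` has `Out F ⊆ Out A`), `hG`; `sh` is pointwise -/
lemma Xg_loc (hG : ∀ F, Loc (Out F) (G F)) (A : Finset V) (k : ℤ) : Loc (Out A) (Xg Λ B G A k) := by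
  sorry

/-- a region found after the step `A → A'` at the relative level `k` has the level `k + e` seen from `A`:
`FL_sh`, `sh Λ (-(2 * k)) (sh Λ (-(2 * e)) h) = sh Λ (-(2 * (k + e))) h` -/
lemma Xg_step {A A' : Finset V} (hB : B ⊆ Λ) (h : A ⊆ A') {k e : ℤ} {g : V → ℤ} (hg : Xg Λ B G A' k (sh Λ (-(2 * e)) g)) :
    Xg Λ B G A (k + e) g := by
  sorry

/-- THE WALK.  Strong induction on `(B \ A).card`.  Let `w(j) = 1` if `|j| ≤ m`, else `0`; `w(j) ≥ 1 - j ^ 2 / m ^ 2`.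
If `G A` holds on the whole law, then the event contains (`F = A`, `i = j`; `A` itself is a region with boundary value `0`) everything if
`|j| ≤ m`, and otherwise the left side is negative.
Otherwise let `P(A', e) = pr (Sp Λ B A A' e)`.  `step_split` for the event `E_j`; on `Lv ∧ G A` the event holds if `|j| ≤ m`
(again `F = A`); on `Sp Λ B A A' e` it holds if the event with `A'`, `j + e` holds for `sh Λ (-(2 * e)) g` (`Xg_step` with
`k = i - (j + e)`), which has conditional probability `≥ 1 - ((j + e) ^ 2 + f A') / m ^ 2 - o A'` (`step_markov`, `Xg_loc`, induction; if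
`P(A', e) > 0` then `St B A'`, `A ⊂ A'` by `Sp_St`).  With `P(A', 1) = P(A', -1)` (`step_sym`) the linear terms `2 j e` cancel:
`pr E_j ≥ (1 - L)(1 - j ^ 2 / m ^ 2) - (∑ P (1 + f)) / m ^ 2 - ∑ P o` with `L = pr (Lv ∧ ¬ G A)`
(`pr (Lv ∧ G A) + ∑ P = 1 - L`), and `(1 - L)(1 - j ^ 2 / m ^ 2) ≥ 1 - L - j ^ 2 / m ^ 2`. -/
theorem walk (hB : Ball Λ B) (hG : ∀ F, Loc (Out F) (G F)) (f o : Finset V → ℝ) (hf : ∀ A, 0 ≤ f A) (ho : ∀ A, 0 ≤ o A)
    (A0 : Finset V) {m : ℕ} (hm : 0 < m)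
    (hst : ∀ A, St B A → A0 ⊆ A → (∀ g ∈ Zs Λ 0 (zt A), G A g) ∨
      ((∑ A' ∈ B.powerset, ∑ e ∈ ({1, -1} : Finset ℤ), pr (Zs Λ 0 (zt A)) (Sp Λ B A A' e) * (1 + f A')) ≤ f A ∧
        pr (Zs Λ 0 (zt A)) (fun g => Lv Λ B A g 0 ∧ ¬ G A g) +
          (∑ A' ∈ B.powerset, ∑ e ∈ ({1, -1} : Finset ℤ), pr (Zs Λ 0 (zt A)) (Sp Λ B A A' e) * o A') ≤ o A)) :
    ∀ A, St B A → A0 ⊆ A → ∀ j : ℤ, 1 - ((j : ℝ) ^ 2 + f A) / (m : ℝ) ^ 2 - o A ≤
      pr (Zs Λ 0 (zt A)) (fun h => ∃ i : ℤ, |i| ≤ m ∧ Xg Λ B G A (i - j) h) := by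
  sorry

end HR
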