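import Pool.Agent.Helper98.HR.U1

/-!
Piece U2 of block HAIR: unimodality in the level.
-/

open Finset RP4 DV

namespace HR

variable {Λ A B : Finset V} {k : ℤ}

/-- Map `h ↦ fr Λ A F k h`, `F` the largest region of level `2 k`: then `F` is the largest region of level `0` of the image (`Mx_sh`,
`Mx_loc`, `fr_out`) and `R` holds for the image (`hR`, `fr_out`).  Injective: `F` is determined by the image (`Mx_unique`), then
`fr_inj`.  Use `Finset.card_le_card_of_injOn`. -/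
theorem unimodal_pos (hB : Ball Λ B) (hA : St B A) (R : Finset V → (V → ℤ) → Prop) (hR : ∀ F, Loc (Out F) (R F)) (hk : 0 < k) :
    pr (Zs Λ 0 (zt A)) (fun h => ∃ F, IsMx A B h (2 * k) F ∧ R F (sh Λ (-(2 * k)) h)) ≤
      pr (Zs Λ 0 (zt A)) (fun h => ∃ F, IsMx A B h 0 F ∧ R F h) := by
  sorry

/-- `k = 0`: `sh Λ 0 h = h` on the law (heights vanish off `Λ`).  `k < 0`: `pr_neg`, `Mx_neg`, and `unimodal_pos` for `-k` and
`R' F g = R F (-g)`. -/
theorem unimodal (hB : Ball Λ B) (hA : St B A) (R : Finset V → (V → ℤ) → Prop) (hR : ∀ F, Loc (Out F) (R F)) (k : ℤ) :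
    pr (Zs Λ 0 (zt A)) (fun h => ∃ F, IsMx A B h (2 * k) F ∧ R F (sh Λ (-(2 * k)) h)) ≤
      pr (Zs Λ 0 (zt A)) (fun h => ∃ F, IsMx A B h 0 F ∧ R F h) := by
  sorry

end HR
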