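import Pool.Agent.Helper98.HR.E0
import Pool.Agent.Helper98.HR.U2
import Pool.Agent.Helper98.HR.A2

/-!
Piece E1 of block HAIR: the exploration leaves `B` at level `0` with a good probability.
-/

open Finset RP4 DV

namespace HR

variable {Λ A B : Finset V}

/-- `Lv_mono` for the event, then `fkg_dec` (`Lv_dec`, `zt_mono`) -/
theorem Lv_prob_mono (hB : Ball Λ B) (hA : St B A) {A' : Finset V} (hA' : St B A') (h : A ⊆ A') :
    pr (Zs Λ 0 (zt A)) (fun g => Lv Λ B A g 0) ≤ pr (Zs Λ 0 (zt A')) (fun g => Lv Λ B A' g 0) := by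
  sorry

/-- for the flat heights every site of `Λ` is low, and `Λ` is connected; a boundary site of `B` (`exists_bdry_right`) has a neighbour
outside `B` -/
theorem Lv_prob_pos (hB : Ball Λ B) (hA : St B A) : 0 < pr (Zs Λ 0 (zt A)) (fun g => Lv Λ B A g 0) := by
  sorry

/-- `walk` with `G F g = Lv Λ B F g 0` (`Lv_loc`), `f = 1 / q`, `o = 0`, `A0 = A`, `j = 0`: second case, `∑ pr Sp = 1 - pr Lv`
(`step_split` with `Q = True`), `(1 - pr Lv) (1 + 1 / q) ≤ 1 / q`.  Then the union bound over `i ∈ Icc (-m) m` (`pr_exists_le`); a region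
with `G` is contained in the largest region (`exists_Mx`), which also has `G` (`Lv_mono`); `unimodal` with `R F g = Lv Λ B F g 0`. -/
theorem level_zero (hB : Ball Λ B) (hA : St B A) {q : ℝ} (hq : 0 < q)
    (hq' : ∀ A', St B A' → A ⊆ A' → q ≤ pr (Zs Λ 0 (zt A')) (fun g => Lv Λ B A' g 0)) {m : ℕ} (hm : 0 < m) :
    1 - 1 / (q * (m : ℝ) ^ 2) ≤ (2 * m + 1) * pr (Zs Λ 0 (zt A)) (fun h => ∃ F, IsMx A B h 0 F ∧ Lv Λ B F h 0) := by
  sorry

end HR
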