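import Pool.Agent.Helper98.HR.A2
import Pool.Agent.Helper98.HR.T0

/-!
Piece H1 of block HAIR: the input HIT gives the hypothesis of `leave_prob`.
-/

open Finset RP4 DV

namespace HR

/-- `HIT` for `A`; the event is decreasing and `zt A ∪ zt (Λ \ Sq x (4 r)) ⊆ zin Λ A F`, so `fkg_dec`.  A low path from `A ⊆ F` to the outside
of `Sq x (4 r)` (hence of `F ⊆ B ⊆ Sq x r`) exits `F` through `bdry F` (`Jn.exit`): `Ht`. -/
theorem hit_in {N : ℤ} {ε : ℝ} (hH : HIT N ε) {Λ A B : Finset V} (hB : Ball Λ B) (hA : St B A) {x : V} {r : ℤ} (hr : 1 ≤ r)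
    (hBr : (B : Set V) ⊆ Sq x r) (hΛ : Sq x (4 * r + 1) ⊆ (Λ : Set V)) (hd : Dm A r N) :
    ∀ F, St B F → A ⊆ F → ε ≤ pr (Zs Λ 0 (zin Λ A F)) (Ht Λ A F) := by
  sorry

end HR
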