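import Pool.Agent.Helper98.HR.A1

/-!
Piece M1 of block HAIR: gluing, resampling outside a region (Markov property).
-/

open Finset RP4 DV

namespace HR

variable {Λ F : Finset V} {h g : V → ℤ} {c : ℤ}

/-- an edge with one end in `F` and one end outside has its inner end in `bdry F` -/
lemma glu_hom (hh : IsHom Λ 0 h) (hg : IsHom Λ 0 g) (hb : ∀ v ∈ bdry F, h v = g v) : IsHom Λ 0 (glu F h g) := by
  sorry

lemma sh_hom (hc : Even c) (hh : IsHom Λ 0 h) : IsHom Λ 0 (sh Λ c h) := by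
  sorry

/-- `sh` by `c` and then by `-c` -/
lemma sh_neg_sh (hh : IsHom Λ 0 h) : sh Λ (-c) (sh Λ c h) = h := by
  sorry

lemma sh_sh_neg (hh : IsHom Λ 0 h) : sh Λ c (sh Λ (-c) h) = h := by
  sorry

/-- RESAMPLING OUTSIDE.  `S` is a set of heights which take the even value `c` on the boundary of `F` and which is closed under changes off
`F`; `R` depends only on the heights off `F` and on the boundary of `F`.  Then, given `S`, the heights off `F` minus `c` have the law with
zeros on `F`.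
Bijection `(h, g) ↦ (glu F h (sh Λ c g), glu F g (sh Λ (-c) h))` from `S × {g ∈ Zs Λ 0 (zt F) | R g}` to
`{h ∈ S | R (sh Λ (-c) h)} × Zs Λ 0 (zt F)`; on `bdry F` (even sites, so `bdry F ⊆ zt F`) one has `h = c` and `g = 0`. -/
theorem swap_out (hΛ : Anc Λ (zt F)) (hF : F ⊆ Λ) (hev : ∀ v ∈ bdry F, Even (par v)) (hc : Even c) (S : Finset (V → ℤ))
    (hS : ∀ h ∈ S, IsHom Λ 0 h ∧ ∀ v ∈ bdry F, h v = c)
    (hcl : ∀ h ∈ S, ∀ h', IsHom Λ 0 h' → (∀ v ∈ F, h' v = h v) → h' ∈ S) (R : (V → ℤ) → Prop) (hR : Loc (Out F) R) :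
    pr S (fun h => R (sh Λ (-c) h)) * S.card = S.card * pr (Zs Λ 0 (zt F)) R := by
  sorry

end HR
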