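import Pool.Agent.Helper98.HR.E0

/-!
Piece R1 of block HAIR: the exploration leaves nested squares at a bounded level.
-/

open Finset RP4 DV

namespace HR

variable {Λ B : Finset V}

/-- `C = Cl Λ A g 0`, `A' = fil1 C` (`nx_coe`).  If `Lv Λ b A g 0` then a neighbour of `C` is outside `b` and it is in `fil1 C`.  If not, then
`fil1 C ⊆ b` (`Cl_int` and `fil1_sub` for `b`). -/
lemma nx_leave {b A A' : Finset V} {e : ℤ} {g : V → ℤ} (hB : Ball Λ B) (hb : Ball Λ b) (hbB : b ⊆ B) (hA : St b A)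
    (hg : g ∈ Zs Λ 0 (zt A)) (h : Sp Λ B A A' e g) : A' ⊆ b ↔ ¬ Lv Λ b A g 0 := by
  sorry

/-- RENEWAL.  For a region `A` let `idx A` be the least `i` with `A ⊆ b i`; `f A = (J + 1 - idx A) / q` if `A ⊆ b J` and `f A = 0` if not;
`o A = O * f A`; `G F g = ¬ F ⊆ b J`.  `walk` from `A0`, `j = 0`, `f A0 ≤ (J + 1) / q`.  Hypothesis of `walk`: if `¬ A ⊆ b J` the first
alternative.  Otherwise let `i = idx A ≤ J`, `p = pr Lv_(b i) ≥ q`; by `nx_leave` (for `b i`) on `Lv_(b i)` the next region is not in `b i`,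
so `f A' ≤ f A - 1 / q`, and off `Lv_(b i)` it is in `b i`, so `f A' ≤ f A` (a larger region has larger `idx`).  Hence
`∑ P (1 + f A') ≤ (1 - p) (1 + f A) + p (1 + f A - 1 / q) ≤ f A`, and also `1 + ∑ P f A' ≤ f A`, which gives the second inequality with
`pr (Lv_B) ≤ O`. -/
theorem renewal (hB : Ball Λ B) (b : ℕ → Finset V) (J : ℕ) (hb : ∀ i ≤ J, Ball Λ (b i)) (hbm : ∀ i, b i ⊆ b (i + 1))
    (hbB : b J ⊆ B) (A0 : Finset V) (hA0 : St (b 0) A0) {q O : ℝ} (hq : 0 < q)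
    (hq' : ∀ i ≤ J, ∀ A, St (b i) A → A0 ⊆ A → (i = 0 ∨ ¬ A ⊆ b (i - 1)) → q ≤ pr (Zs Λ 0 (zt A)) (fun g => Lv Λ (b i) A g 0))
    (hO : ∀ A, St (b J) A → A0 ⊆ A → pr (Zs Λ 0 (zt A)) (fun g => Lv Λ B A g 0) ≤ O) {m : ℕ} (hm : 0 < m) :
    1 - ((J + 1) / q) / (m : ℝ) ^ 2 - O * ((J + 1) / q) ≤
      pr (Zs Λ 0 (zt A0)) (fun h => ∃ i : ℤ, |i| ≤ m ∧ ∃ F, FL A0 B h (2 * i) F ∧ ¬ F ⊆ b J) := by
  sorry

end HR
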