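import Pool.Agent.Helper98.HR.R1
import Pool.Agent.Helper98.HR.C2
import Pool.Agent.Helper98.HR.D1
import Pool.Agent.Helper98.HR.H1

/-!
Piece R2 of block HAIR: some level of bounded height has a region that contains the square of radius `2 ρ`.
-/

open Finset RP4 DV

namespace HR

lemma rad_add (K r : ℤ) (i j : ℕ) : rad K (rad K r i) j = rad K r (i + j) := by
  induction j with
  | zero => rfl
  | succ j ih =>
    show K * rad K (rad K r i) j + 1 = K * rad K r (i + j) + 1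
    rw [ih]

/-- `K ≥ 2`, `r ≥ 1` -/
lemma rad_mono {K r : ℤ} (hK : 2 ≤ K) (hr : 1 ≤ r) {i j : ℕ} (h : i ≤ j) : r ≤ rad K r i ∧ rad K r i ≤ rad K r j := by
  sorry

lemma rad_le {K r : ℤ} (hK : 2 ≤ K) (hr : 1 ≤ r) (j : ℕ) : rad K r j ≤ (K + 1) ^ j * r := by
  sorry

/-- `i = 0`: from `Dm A ρ M`.  `i ≥ 1`: `A'` has a site `v` off `Sq x R`, `R = rad K (2 ρ) (i - 1) ≥ 2 ρ`, and a site `u` (of `A`) in
`Sq x ρ`: `2 |u - v| ≥ R` in one coordinate, and `rad K (2 ρ) i = K R + 1 ≤ (K + 1) R`. -/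
lemma Dm_scale {K M N : ℤ} (hK : 2 ≤ K) (hM : 1 ≤ M) (hN1 : 2 * M ≤ N) (hN2 : 2 * (K + 1) ≤ N) {A A' : Finset V} {x : V} {ρ : ℤ}
    (hρ : 1 ≤ ρ) (hne : A.Nonempty) (hA : (A : Set V) ⊆ Sq x ρ) (hd : Dm A ρ M) (hAA : A ⊆ A') (i : ℕ)
    (hi : i = 0 ∨ ¬ A' ⊆ sq x (rad K (2 * ρ) (i - 1))) : Dm A' (rad K (2 * ρ) i) N := by
  sorry

/-- `renewal` with `b i = sq x (rad K (2 ρ) i)`, `B = sq x (rad K (2 ρ) (J + J') + 1)`, `A0 = A`, `q = ε ^ 2 / 144` (`leave_prob`, `hit_in` with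
`r = rad K (2 ρ) i`, `Dm_scale`), `O = (1 - c) ^ J'` (`overshoot`, `rad_add`).  The largest region of level `2 i` is not contained in `b J` either.
If it does not contain `Sq x (2 ρ)`: by `unimodal` with `R F h = (¬ Sq x (2 ρ) ⊆ F ∧ ¬ F ⊆ b J)` this has at most the probability for level
`0`, which is at most `pr (Crs Λ x (2 ρ) (rad K (2 ρ) J)) ≤ (1 - c) ^ J` (`Crs_of_region`, `Mx_fill`, `decay`).  Union over
`i ∈ Icc (-m) m`. -/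
theorem good_level {K : ℤ} {c : ℝ} (hK : 2 ≤ K) (hc0 : 0 ≤ c) (hc1 : c ≤ 1) (hL : LOOP K c) {N : ℤ} {ε : ℝ} (hε : 0 < ε)
    (hH : HIT N ε) {M : ℤ} (hM : 1 ≤ M) (hN1 : 2 * M ≤ N) (hN2 : 2 * (K + 1) ≤ N) (J J' : ℕ) {Λ A : Finset V} {x : V} {ρ : ℤ}
    (hρ : 1 ≤ ρ) (hΛ : Cnn (Λ : Set V)) (hΛ' : Sq x (4 * rad K (2 * ρ) (J + J') + 5) ⊆ (Λ : Set V)) (hA : St Λ A)
    (hAρ : (A : Set V) ⊆ Sq x ρ) (hd : Dm A ρ M) {m : ℕ} (hm : 0 < m) :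
    1 - ((J + 1) / (ε ^ 2 / 144)) / (m : ℝ) ^ 2 - (1 - c) ^ J' * ((J + 1) / (ε ^ 2 / 144)) - (2 * m + 1) * (1 - c) ^ J ≤
      pr (Zs Λ 0 (zt A)) (fun h => ∃ i : ℤ, |i| ≤ m ∧
        ∃ F, IsMx A (sq x (rad K (2 * ρ) (J + J') + 1)) h (2 * i) F ∧ Sq x (2 * ρ) ⊆ (F : Set V)) := by
  sorry

end HR
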