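import Pool.Agent.Helper98.HR.R2

/-!
Piece R3 of block HAIR: CIRC, the flat regions around a hair.
-/

open Finset RP4 DV

namespace HR

/-- pure calculus: with `m = J`, `J` large, then `J'` large -/
lemma circ_calc {c a δ : ℝ} (hc0 : 0 < c) (hc1 : c ≤ 1) (ha : 0 < a) (hδ : 0 < δ) :
    ∃ J J' : ℕ, 0 < J ∧ 1 - δ ≤ 1 - ((J + 1) / a) / (J : ℝ) ^ 2 - (1 - c) ^ J' * ((J + 1) / a) - (2 * J + 1) * (1 - c) ^ J := by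
  sorry

/-- OUTPUT 1 (levels).  `good_level` with `N = max (2 M) (2 (K + 1))`, `circ_calc` with `a = ε ^ 2 / 144`, `m = J`,
`s = 2 (K + 1) ^ (J + J') + 1` (`rad_le`).  A region in the smaller square is a region in `sq x (s * ρ)`, contained in the largest one. -/
theorem circ {K : ℤ} {c : ℝ} (hK : 2 ≤ K) (hc0 : 0 < c) (hc1 : c ≤ 1) (hL : LOOP K c) (hH : ∀ N : ℤ, ∃ ε : ℝ, 0 < ε ∧ HIT N ε)
    (M : ℤ) (hM : 1 ≤ M) (δ : ℝ) (hδ : 0 < δ) : ∃ (s : ℤ) (m : ℕ), 2 ≤ s ∧ 0 < m ∧ ∀ (Λ A : Finset V) (x : V) (ρ : ℤ), 1 ≤ ρ →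
      Cnn (Λ : Set V) → Sq x (4 * s * ρ + 5) ⊆ (Λ : Set V) → St Λ A → (A : Set V) ⊆ Sq x ρ → Dm A ρ M →
        1 - δ ≤ pr (Zs Λ 0 (zt A)) (fun h => ∃ i : ℤ, |i| ≤ m ∧
          ∃ F, IsMx A (sq x (s * ρ)) h (2 * i) F ∧ Sq x (2 * ρ) ⊆ (F : Set V)) := by
  sorry

/-- OUTPUT 2 (zero level): `circ` with `δ = 1 / 2`, union bound, `unimodal` with `R F h = (Sq x (2 ρ) ⊆ F)`: `c' = 1 / (2 (2 m + 1))` -/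
theorem circ_zero {K : ℤ} {c : ℝ} (hK : 2 ≤ K) (hc0 : 0 < c) (hc1 : c ≤ 1) (hL : LOOP K c)
    (hH : ∀ N : ℤ, ∃ ε : ℝ, 0 < ε ∧ HIT N ε) (M : ℤ) (hM : 1 ≤ M) : ∃ (s : ℤ) (c' : ℝ), 2 ≤ s ∧ 0 < c' ∧
      ∀ (Λ A : Finset V) (x : V) (ρ : ℤ), 1 ≤ ρ →
      Cnn (Λ : Set V) → Sq x (4 * s * ρ + 5) ⊆ (Λ : Set V) → St Λ A → (A : Set V) ⊆ Sq x ρ → Dm A ρ M →
        c' ≤ pr (Zs Λ 0 (zt A)) (fun h => ∃ F, IsMx A (sq x (s * ρ)) h 0 F ∧ Sq x (2 * ρ) ⊆ (F : Set V)) := by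
  sorry

end HR
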