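import Pool.Agent.Helper98.HR.T2
import Pool.Agent.Helper98.HR.M1

/-!
Piece S1 of block HAIR: one step of the exploration, probabilities.
-/

open Finset RP4 DV

namespace HR

variable {Λ A B A' : Finset V} {e : ℤ}

/-- Every `g` of the law either satisfies `Lv` or exactly one `Sp Λ B A A' e` with `A' ⊆ B`, `e = 1` or `-1` (`step_exists`,
`Sp_unique`); `pr_split`, `pr_exists_eq`. -/
theorem step_split (hB : Ball Λ B) (hA : St B A) (Q : (V → ℤ) → Prop) :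
    pr (Zs Λ 0 (zt A)) Q = pr (Zs Λ 0 (zt A)) (fun g => Lv Λ B A g 0 ∧ Q g) +
      ∑ A' ∈ B.powerset, ∑ e ∈ ({1, -1} : Finset ℤ), pr (Zs Λ 0 (zt A)) (fun g => Sp Λ B A A' e g ∧ Q g) := by
  sorry

/-- `pr_neg`, `Sp_neg` -/
theorem step_sym (hB : Ball Λ B) (hA : St B A) (A' : Finset V) (e : ℤ) :
    pr (Zs Λ 0 (zt A)) (Sp Λ B A A' (-e)) = pr (Zs Λ 0 (zt A)) (Sp Λ B A A' e) := by
  sorry

/-- Markov property of the step: `swap_out` for `F = A'`, `c = 2 e`, `S = (Zs Λ 0 (zt A)).filter (Sp Λ B A A' e)` (closed by `Sp_loc`; the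
zeros of `zt A` are in `A'`); if `S` is empty both sides vanish, otherwise `Sp_St` and `anc_zt`. -/
theorem step_markov (hB : Ball Λ B) (hA : St B A) (A' : Finset V) (e : ℤ) (R : (V → ℤ) → Prop) (hR : Loc (Out A') R) :
    pr (Zs Λ 0 (zt A)) (fun g => Sp Λ B A A' e g ∧ R (sh Λ (-(2 * e)) g)) =
      pr (Zs Λ 0 (zt A)) (Sp Λ B A A' e) * pr (Zs Λ 0 (zt A')) R := by
  sorry

end HR
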