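import Pool.Agent.Helper98.HR.T0

/-!
Piece T1 of block HAIR: one step of the outward exploration.

Tools (Helper97/DV/Fl.lean): `ext`, `fil`, `fil1`, `lay`, `ext_cnn`, `fil_cnn`, `fil1_cnn`, `lay_const`, `far_mem_ext`, `ext_con`, `ext_bd`,
`bdd_coe`.  Write `C = Cl Λ A g 0`; `C ⊆ B` is bounded (`Cl_int`, `bdd_coe`) and connected (`Cl_cnn`).
-/

open Finset RP4 DV

namespace HR

variable {Λ B A : Finset V} {g : V → ℤ}

/-- If all sites of `C` and their neighbours are in `B` then `fil1 C ⊆ B`: the complement of `B` is connected, unbounded and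
disjoint from `C`, so it is contained in `ext C`; the layer is in `B`. -/
lemma fil1_sub (hB : Ball Λ B) {C : Set V} (hC : ∀ v ∈ C, v ∈ B ∧ ∀ u, Adj v u → u ∈ B) : fil1 C ⊆ (B : Set V) := by
  sorry

lemma nx_coe (hB : Ball Λ B) {C : Set V} (hC : ∀ v ∈ C, v ∈ B ∧ ∀ u, Adj v u → u ∈ B) :
    ((nx B C : Finset V) : Set V) = fil1 C := by
  sorry

/-- A site of `fil1 C` with a neighbour `z` outside is in the layer: `z ∈ ext C`; if the site is in `fil C` it is in `C` (`ext_bd`), and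
then `z` is in the layer. -/
lemma bdry_nx (hB : Ball Λ B) {C : Set V} (hC : ∀ v ∈ C, v ∈ B ∧ ∀ u, Adj v u → u ∈ B) {v : V}
    (hv : v ∈ bdry (nx B C)) : v ∈ lay C := by
  sorry

/-- `A ⊆ C ⊆ fil1 C`; `fil1 C` is connected; the boundary sites are in the layer, hence even (`lay_val`) -/
lemma nx_St (hB : Ball Λ B) (hA : St B A) (hg : g ∈ Zs Λ 0 (zt A)) (hn : ¬ Lv Λ B A g 0) :
    St B (nx B (Cl Λ A g 0)) := by
  sorry

/-- `A ⊆ C`, and `nx` contains the layer, which is nonempty (exit of a path from `C` to a far point of the plane from `fil C`) and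
disjoint from `C` -/
lemma nx_ssub (hB : Ball Λ B) (hA : St B A) (hg : g ∈ Zs Λ 0 (zt A)) (hn : ¬ Lv Λ B A g 0) :
    A ⊂ nx B (Cl Λ A g 0) := by
  sorry

/-- The height is `2 e` on the whole layer: `lay_const` with `s = g`.  `hpar`: layer sites are even.  `hs`: `g b` and `g d` are `2` or
`-2` and `c ∈ Λ` is a neighbour of both (`c` is a neighbour of `b ∈ B`), so `|g b - g d| ≤ 2` and `g b = g d`. -/
lemma lay_sign (hB : Ball Λ B) (hA : St B A) (hg : g ∈ Zs Λ 0 (zt A)) (hn : ¬ Lv Λ B A g 0) :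
    ∃ e : ℤ, (e = 1 ∨ e = -1) ∧ ∀ v ∈ lay (Cl Λ A g 0), g v = 2 * e := by
  sorry

/-- `lay_sign`, `bdry_nx` -/
theorem step_exists (hB : Ball Λ B) (hA : St B A) (hg : g ∈ Zs Λ 0 (zt A)) (hn : ¬ Lv Λ B A g 0) :
    ∃ e : ℤ, (e = 1 ∨ e = -1) ∧ Sp Λ B A (nx B (Cl Λ A g 0)) e g := by
  obtain ⟨e, he, h⟩ := lay_sign hB hA hg hn
  exact ⟨e, he, hn, rfl, fun v hv => h v (bdry_nx hB (Cl_int hB hA hA.sub hn) hv)⟩

end HR
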