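import Pool.Agent.Helper98.HR.T1

/-!
Piece T2 of block HAIR: the step depends only on the heights in the new region; symmetry; uniqueness.
-/

open Finset RP4 DV

namespace HR

variable {Λ B A A' : Finset V} {g g' : V → ℤ} {e e' : ℤ}

/-- Let `C = Cl Λ A g 0`.  `C` and its neighbours are in `A' = fil1 C` (`nx_coe`), there `g' = g`.  The neighbours of `C` outside `C` are
in `Λ` and not low for `g`, hence not low for `g'`: `Cl Λ A g' 0 = C` (both inclusions by induction along paths).  So `Lv` and `nx` are the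
same. -/
theorem Sp_loc (hB : Ball Λ B) (hA : St B A) (hg : g ∈ Zs Λ 0 (zt A)) (h : Sp Λ B A A' e g) (hgg : ∀ v ∈ A', g' v = g v) :
    Sp Λ B A A' e g' := by
  sorry

/-- `Lo Λ (-g) 0 = Lo Λ g 0` -/
theorem Sp_neg (h : Sp Λ B A A' e g) : Sp Λ B A A' (-e) (-g) := by
  sorry

/-- `A' = nx ..`, and `A'` is nonempty, so it has a boundary site (`exists_bdry_right`) -/
theorem Sp_unique (hB : Ball Λ B) (hA : St B A) {A'' : Finset V} (h : Sp Λ B A A' e g) (h' : Sp Λ B A A'' e' g) :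
    A' = A'' ∧ e = e' := by
  sorry

/-- `nx_St`, `nx_ssub` -/
theorem Sp_St (hB : Ball Λ B) (hA : St B A) (hg : g ∈ Zs Λ 0 (zt A)) (h : Sp Λ B A A' e g) : St B A' ∧ A ⊂ A' := by
  obtain ⟨h1, h2, -⟩ := h
  subst h2
  exact ⟨nx_St hB hA hg h1, nx_ssub hB hA hg h1⟩

end HR
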