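import Pool.Agent.Helper98.HR.X1

/-!
Piece U1 of block HAIR: unimodality in the level.
-/

open Finset RP4 DV

namespace HR

open Classical in
/-- the reflection: off `F` subtract `2 k`; in `F` reflect at level `k` off the cluster of `A` in the sites below `k` -/
noncomputable def fr (Λ A F : Finset V) (k : ℤ) (h : V → ℤ) : V → ℤ := fun v =>
  if v ∈ F then (if v ∈ clus {w | w ∈ F ∧ h w < k} ((zt A : Finset V) : Set V) then h v else 2 * k - h v)
  else sh Λ (-(2 * k)) h v

variable {Λ A B F : Finset V} {h : V → ℤ} {k : ℤ}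

/-- Let `U` be the cluster of `zt A` in `{w ∈ F | h w < k}` (it contains `zt A`, where `h = 0 < k`).  `fr` is a height function: inside `U`
clear; from `u ∈ U` to a neighbour `v ∈ F` off `U`: `h v ≥ k`, so `h u = k - 1`, `h v = k`; off `U` clear; a boundary site of `F` has
height `2 k ≥ k`, so it is not in `U`, its new height is `0`, and its neighbours off `F` have `h v - 2 k = 1` or `-1`. -/
lemma fr_mem (hB : Ball Λ B) (hA : St B A) (hh : h ∈ Zs Λ 0 (zt A)) (hk : 0 < k) (hF : FL A B h (2 * k) F) :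
    fr Λ A F k h ∈ Zs Λ 0 (zt A) := by
  sorry

/-- it agrees with the shifted heights off `F` and on the boundary of `F` -/
lemma fr_out (hB : Ball Λ B) (hA : St B A) (hh : h ∈ Zs Λ 0 (zt A)) (hk : 0 < k) (hF : FL A B h (2 * k) F) :
    ∀ v ∈ Out F, sh Λ (-(2 * k)) h v = fr Λ A F k h v := by
  sorry

/-- the cluster `U` is the same for `fr`: on `U` the heights agree, the neighbours of `U` in `F` off `U` get the height `k` -/
lemma fr_clus (hB : Ball Λ B) (hA : St B A) (hh : h ∈ Zs Λ 0 (zt A)) (hk : 0 < k) (hF : FL A B h (2 * k) F) :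
    clus {w | w ∈ F ∧ fr Λ A F k h w < k} ((zt A : Finset V) : Set V) = clus {w | w ∈ F ∧ h w < k} ((zt A : Finset V) : Set V) := by
  sorry

/-- injectivity for given `F` -/
lemma fr_inj (hB : Ball Λ B) (hA : St B A) {h' : V → ℤ} (hh : h ∈ Zs Λ 0 (zt A)) (hh' : h' ∈ Zs Λ 0 (zt A)) (hk : 0 < k)
    (hF : FL A B h (2 * k) F) (hF' : FL A B h' (2 * k) F) (he : fr Λ A F k h = fr Λ A F k h') : h = h' := by
  sorry

end HR
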