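import Pool.Agent.Helper98.HR.A1
import Pool.Agent.Helper98.HR.M1
import Pool.Agent.Helper63.RP4.A03h

/-!
Piece V1 of block HAIR: second moment with boundary values between `-2` and `2`.
-/

open Finset RP4 DV

namespace HR

/-- positive part of the average, one side.  `holley_avg` with `A = (Zs Λ 0 (zt N)).image (sh Λ 2)`, `B = S` and the increasing function
`F h = (max 0 (∑ v ∈ D, g v * h v)) ^ 2`.  For `a = sh Λ 2 a0` and `b ∈ S`: `a ⊔ b` is a height function with the value `2` on `zt N` (there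
`b = h0 ≤ 2`), so `sh Λ (-2) (a ⊔ b) ∈ Zs Λ 0 (zt N)`.  `a ⊓ b = h0` on `N`: at an even site `a = 2 ≥ h0`; at an odd site `v`, which has
a neighbour in `zt N`, `a v ≥ 1 ≥ h0 v`.  Finally `∑ g v * (a0 v + 2) ≤ X a0 + 2` and
`(max 0 (X + 2)) ^ 2 ≤ (max 0 X) ^ 2 + 4 * max 0 X + 4`. -/
theorem cond_pos {Λ N : Finset V} (hN : Anc Λ (zt N)) (hNs : N ⊆ Λ) {h0 : V → ℤ} (hh0 : IsHom Λ 0 h0)
    (he : ∀ v ∈ N, Even (par v) → h0 v ≤ 2) (ho : ∀ v ∈ N, ¬ Even (par v) → h0 v ≤ 1 ∧ ∃ u ∈ N, Adj u v)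
    (S : Finset (V → ℤ)) (hS : ∀ h, h ∈ S ↔ IsHom Λ 0 h ∧ ∀ v ∈ N, h v = h0 v) (D : Finset V) (g : V → ℝ)
    (hg : ∀ v, 0 ≤ g v) (hg1 : ∑ v ∈ D, g v ≤ 1) :
    avg S (fun h => (max 0 (∑ v ∈ D, g v * (h v : ℝ))) ^ 2) ≤
      avg (Zs Λ 0 (zt N)) (fun h => (max 0 (∑ v ∈ D, g v * (h v : ℝ))) ^ 2) +
        4 * avg (Zs Λ 0 (zt N)) (fun h => max 0 (∑ v ∈ D, g v * (h v : ℝ))) + 4 := by
  sorry

/-- `X ^ 2 = (max 0 X) ^ 2 + (max 0 (-X)) ^ 2`; `cond_pos` for `h0` and for `-h0`, `S.image (-·)`; the law `Zs Λ 0 (zt N)` is symmetric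
(`neg_lw`), so the sum is at most `V0 + 4 avg |X| + 8` and `avg |X| ≤ sqrt V0` (Cauchy-Schwarz). -/
theorem cond_var {Λ N : Finset V} (hN : Anc Λ (zt N)) (hNs : N ⊆ Λ) {h0 : V → ℤ} (hh0 : IsHom Λ 0 h0)
    (he : ∀ v ∈ N, Even (par v) → |h0 v| ≤ 2) (ho : ∀ v ∈ N, ¬ Even (par v) → |h0 v| ≤ 1 ∧ ∃ u ∈ N, Adj u v)
    (S : Finset (V → ℤ)) (hS : ∀ h, h ∈ S ↔ IsHom Λ 0 h ∧ ∀ v ∈ N, h v = h0 v) (D : Finset V) (g : V → ℝ)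
    (hg : ∀ v, 0 ≤ g v) (hg1 : ∑ v ∈ D, g v ≤ 1) :
    avg S (fun h => (∑ v ∈ D, g v * (h v : ℝ)) ^ 2) ≤
      avg (Zs Λ 0 (zt N)) (fun h => (∑ v ∈ D, g v * (h v : ℝ)) ^ 2) +
        4 * Real.sqrt (avg (Zs Λ 0 (zt N)) (fun h => (∑ v ∈ D, g v * (h v : ℝ)) ^ 2)) + 8 := by
  sorry

end HR
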