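import Pool.Agent.Helper98.HR.V1
import Pool.Agent.Helper98.HR.T0
import Pool.Agent.Helper98.HR.A3

/-!
Piece V2 of block HAIR: exploration of the low cluster of the hair, second moments.
-/

open Finset RP4 DV

namespace HR

open Classical in
/-- the low cluster of `A` and its neighbours -/
noncomputable def nb (Λ A : Finset V) (h : V → ℤ) : Finset V :=
  Λ.filter (fun v => v ∈ clus (Lo Λ h 0) (A : Set V) ∨ ∃ z ∈ clus (Lo Λ h 0) (A : Set V), Adj z v)

variable {Λ A B : Finset V} {h h' : V → ℤ}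

/-- both inclusions by induction along paths (as in `Sp_loc`): the neighbours of the cluster which are not in it are not low -/
lemma clus_nb (hB : Ball Λ B) (hA : St B A) (hh : h ∈ Zs Λ 0 (zt A)) (he : ∀ v ∈ nb Λ A h, h' v = h v) :
    clus (Lo Λ h' 0) (A : Set V) = clus (Lo Λ h 0) (A : Set V) := by
  sorry

/-- `A_lo`; a site of `nb` off the cluster is not low and has a low neighbour: `|h v| = 2`, so it is even.  An odd site of `nb` is in the
cluster; if it is in `A` it is not a boundary site of `A` and its neighbours are in `A`; otherwise it is the end of a path from `A`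
and has a neighbour in the cluster. -/
lemma nb_val (hB : Ball Λ B) (hA : St B A) (hh : h ∈ Zs Λ 0 (zt A)) : A ⊆ nb Λ A h ∧
    (∀ v ∈ nb Λ A h, Even (par v) → |h v| ≤ 2) ∧ (∀ v ∈ nb Λ A h, ¬ Even (par v) → |h v| ≤ 1 ∧ ∃ u ∈ nb Λ A h, Adj u v) := by
  sorry

/-- Partition of the law into the classes `S_h = {h' | h' = h on nb Λ A h}` (`clus_nb`: `nb` is constant on a class, and a zero on `zt A` is
kept since `A ⊆ nb`).  On each class `cond_var` (`nb_val`).  `V0 ≤ e` for every class (`var_mono`, `zt A ⊆ zt (nb Λ A h)`), and `V0 ≤ M0` on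
the classes in `P` (`P` depends only on the class). -/
theorem slit_step (hB : Ball Λ B) (hA : St B A) (D : Finset V) (g : V → ℝ) (hg : ∀ v, 0 ≤ g v) (hg1 : ∑ v ∈ D, g v ≤ 1)
    (P : (V → ℤ) → Prop) (hP : ∀ h h', h ∈ Zs Λ 0 (zt A) → (∀ v ∈ nb Λ A h, h' v = h v) → P h → P h') {M0 : ℝ}
    (hM : ∀ h ∈ Zs Λ 0 (zt A), P h → avg (Zs Λ 0 (zt (nb Λ A h))) (fun h => (∑ v ∈ D, g v * (h v : ℝ)) ^ 2) ≤ M0) {e : ℝ}
    (he : e = avg (Zs Λ 0 (zt A)) (fun h => (∑ v ∈ D, g v * (h v : ℝ)) ^ 2)) :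
    e ≤ pr (Zs Λ 0 (zt A)) P * (M0 + 4 * Real.sqrt M0 + 8) + (1 - pr (Zs Λ 0 (zt A)) P) * (e + 4 * Real.sqrt e + 8) := by
  sorry

end HR
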