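import Pool.Agent.Helper98.HR.V2
import Pool.Agent.Helper35.MD.G4b

/-!
Piece V3 of block HAIR: the swallowed case.
-/

open Finset RP4 DV

namespace HR

/-- the law with zeros on `bdry F` restricted to `F`: bijection `(h, u) ↦ (h on F and 0 off F, glue of u on F and h off F)` from
`Zs Λ 0 (bdry F) × Om F` to `Om F × Zs Λ 0 (bdry F)` -/
lemma avg_inside {Λ F : Finset V} (hA : Anc Λ (bdry F)) (hF : F ⊆ Λ) (X : (V → ℤ) → ℝ)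
    (hX : ∀ h h' : V → ℤ, (∀ v ∈ F, h v = h' v) → X h = X h') : avg (Zs Λ 0 (bdry F)) X = avg (Om F) X := by
  sorry

/-- `F` from `Sw`: `bdry F ⊆ nb Λ A h` and its sites are even, so `bdry F ⊆ zt (nb Λ A h)`: `var_mono`, `avg_inside`, then `MD.mdv` with
`D = F`, `R = 2 s ρ`, `A = 1 / ρ ^ 2` and the weight `g` cut off outside `sq x ρ` (`sq x ρ ⊆ F`): at most `C (2 s) ^ 2`. -/
theorem sw_var : ∃ C : ℝ, 0 ≤ C ∧ ∀ (s : ℤ), 2 ≤ s → ∀ (Λ A : Finset V) (x : V) (ρ : ℤ), 1 ≤ ρ → Ball Λ (sq x (s * ρ)) →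
    St (sq x (s * ρ)) A → ∀ g : V → ℝ, (∀ v, 0 ≤ g v) → (∀ v, g v * (ρ : ℝ) ^ 2 ≤ 1) → (∑ v ∈ sq x ρ, g v ≤ 1) →
      ∀ h ∈ Zs Λ 0 (zt A), Sw Λ A x (2 * ρ) (s * ρ) h →
        avg (Zs Λ 0 (zt (nb Λ A h))) (fun h => (∑ v ∈ sq x ρ, g v * (h v : ℝ)) ^ 2) ≤ C * (s : ℝ) ^ 2 := by
  sorry

end HR
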