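import Pool.Agent.Helper98.HR.R3

/-!
Piece W1 of block HAIR: the low cluster of the hair swallows the square with a positive probability, in every zero environment.
-/

open Finset RP4 DV

namespace HR

/-- the low clusters grow when the absolute value decreases -/
lemma Sw_dec (Λ A : Finset V) (x : V) (r s : ℤ) : Dec (Sw Λ A x r s) := by
  sorry

/-- `F` as in `one_cluster`, some boundary site is joined to `A` (`Ht`): all of `bdry F` is in the low cluster of `A` -/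
lemma Sw_of_Mx {Λ A : Finset V} {x : V} {r s : ℤ} {h : V → ℤ} (hB : Ball Λ (sq x s)) (hA : St (sq x s) A)
    (hh : h ∈ Zs Λ 0 (zt A)) {F : Finset V} (hF : IsMx A (sq x s) h 0 F) (hr : Sq x r ⊆ (F : Set V)) (hH : Ht Λ A F h) :
    Sw Λ A x r s h := by
  sorry

/-- OUTPUT 3.  `circ_zero`, `Mx_Ht` with `B = sq x (s ρ)`, `R F h = (Sq x (2 ρ) ⊆ F)` and `hit_in` with `r = s ρ`, `N = s M` (a set with
`Dm A ρ M` has `Dm A (s ρ) (s M)`), `Sw_of_Mx`; then more zeros: `fkg_dec`, `Sw_dec`.  `c'' = c' ε`. -/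
theorem swallow {K : ℤ} {c : ℝ} (hK : 2 ≤ K) (hc0 : 0 < c) (hc1 : c ≤ 1) (hL : LOOP K c)
    (hH : ∀ N : ℤ, ∃ ε : ℝ, 0 < ε ∧ HIT N ε) (M : ℤ) (hM : 1 ≤ M) : ∃ (s : ℤ) (c'' : ℝ), 2 ≤ s ∧ 0 < c'' ∧
      ∀ (Λ A Z : Finset V) (x : V) (ρ : ℤ), 1 ≤ ρ →
      Anc Λ Z → zt A ⊆ Z → Sq x (4 * s * ρ + 5) ⊆ (Λ : Set V) → St Λ A → (A : Set V) ⊆ Sq x ρ → Dm A ρ M →
        c'' ≤ pr (Zs Λ 0 Z) (Sw Λ A x (2 * ρ) (s * ρ)) := by
  sorry

end HR
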