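import Pool.Agent.Helper98.HR.V3
import Pool.Agent.Helper98.HR.W1

/-!
Piece V4 of block HAIR: OUTPUT 4, the variance near a hair (D1-SLIT).
-/

open Finset RP4 DV

namespace HR

/-- pure calculus: if `e ≤ M0` clear; otherwise `p e ≤ p M0 + 4 sqrt e + 8`, `4 sqrt e ≤ a e / 2 + 8 / a` -/
lemma slit_calc {p a M0 e : ℝ} (ha : 0 < a) (hp : a ≤ p) (hp1 : p ≤ 1) (hM : 0 ≤ M0) (he0 : 0 ≤ e)
    (he : e ≤ p * (M0 + 4 * Real.sqrt M0 + 8) + (1 - p) * (e + 4 * Real.sqrt e + 8)) :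
    e ≤ 2 * M0 + 16 / a + 16 / a ^ 2 := by
  sorry

/-- `var_mono` from `Z` to `zt A`; `slit_step` with `P = Sw Λ A x (2 ρ) (s ρ)` (it depends only on the cluster: `clus_nb`), `sw_var`,
`swallow` with `Z = zt A`, `slit_calc`. -/
theorem slit {K : ℤ} {c : ℝ} (hK : 2 ≤ K) (hc0 : 0 < c) (hc1 : c ≤ 1) (hL : LOOP K c)
    (hH : ∀ N : ℤ, ∃ ε : ℝ, 0 < ε ∧ HIT N ε) (M : ℤ) (hM : 1 ≤ M) : ∃ (s : ℤ) (C : ℝ), 2 ≤ s ∧ 0 ≤ C ∧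
      ∀ (Λ A Z : Finset V) (x : V) (ρ : ℤ), 1 ≤ ρ →
      Anc Λ Z → zt A ⊆ Z → Sq x (4 * s * ρ + 5) ⊆ (Λ : Set V) → St Λ A → (A : Set V) ⊆ Sq x ρ → Dm A ρ M →
        ∀ g : V → ℝ, (∀ v, 0 ≤ g v) → (∀ v, g v * (ρ : ℝ) ^ 2 ≤ 1) → (∑ v ∈ sq x ρ, g v ≤ 1) →
          avg (Zs Λ 0 Z) (fun h => (∑ v ∈ sq x ρ, g v * (h v : ℝ)) ^ 2) ≤ C := by
  sorry

end HR
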